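import Mathlib
import Pool.Agent.Lib.MP_7ab245_nt.Few.Main

/-!
A lower bound for the Mahler measure of an irreducible divisor of a polynomial whose exponents
lie in few short intervals.
-/

set_option autoImplicit false

open Polynomial

namespace Pool.Agent.Results.MP_7ab245_nt.FewBlocks

/-- Let `H` be a nonzero integer polynomial whose exponents lie in the union of at most `k`
intervals `[s, s + ℓ]`, and let `f` be an irreducible divisor of `H` with Mahler measure greater
than one. Then `log M(f)` is at least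
`(deg f / deg H)^2 / (3000000 (k + log (ℓ + 16) / log log (ℓ + 16))^3)`. -/
theorem result (k ℓ : ℕ) (S : Finset ℕ) (hS : S.card ≤ k) (f H : ℤ[X])
    (hirr : Irreducible f) (hH : H ≠ 0)
    (hsupp : ∀ e ∈ H.support, ∃ s ∈ S, s ≤ e ∧ e ≤ s + ℓ) (hfH : f ∣ H)
    (hM : 1 < (f.map (Int.castRingHom ℂ)).mahlerMeasure) :
    ((f.natDegree : ℝ) / H.natDegree) ^ 2 /
      (3000000 * ((k : ℝ) + Real.log (ℓ + 16) / Real.log (Real.log (ℓ + 16))) ^ 3) ≤
      Real.log (f.map (Int.castRingHom ℂ)).mahlerMeasure :=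
  Pool.Agent.Lib.MP_7ab245_nt.Few.few_main k ℓ S hS f H hirr hH hsupp hfH hM

end Pool.Agent.Results.MP_7ab245_nt.FewBlocks
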