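import Mathlib
import Pool.Agent.Lib.MP_7ab245_nt.LogVar.Monomial

/-!
# The Mahler measure of a polynomial with few monomials

There is an absolute constant `c > 0` such that every integer polynomial `f` with `M(f) > 1`, with
`k` monomials and length `L` satisfies
`log M(f) ≥ c / (k * min (1 + log L) (k log (k + 1)) * (log (k + 1))^6)`.
-/

set_option autoImplicit false

open Polynomial

namespace Pool.Agent.Results.MP_7ab245_nt.MonomialSquare

theorem result : ∃ c : ℝ, 0 < c ∧ ∀ f : ℤ[X], 1 < (f.map (Int.castRingHom ℂ)).mahlerMeasure →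
    c / (f.support.card * min (1 + Real.log (∑ i ∈ f.support, |(f.coeff i : ℝ)|))
          (f.support.card * Real.log (f.support.card + 1)) *
        Real.log (f.support.card + 1) ^ 6) ≤
      Real.log (f.map (Int.castRingHom ℂ)).mahlerMeasure := by
  obtain ⟨c, hc, h⟩ := Pool.Agent.Lib.MP_7ab245_nt.LogVar.monomial_bounds
  refine ⟨c, hc, ?_⟩
  intro f hf
  obtain ⟨h1, h2⟩ := h f hf
  rcases min_choice (1 + Real.log (∑ i ∈ f.support, |(f.coeff i : ℝ)|))
    (f.support.card * Real.log (f.support.card + 1)) with h3 | h3
  · rw [h3]; exact h1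
  · rw [h3]
    refine le_trans (le_of_eq ?_) h2
    congr 1
    ring

end Pool.Agent.Results.MP_7ab245_nt.MonomialSquare
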