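import Mathlib
import Pool.Agent.Lib.MP_7ab245_nt.Core

/-!
Lehmer's problem for integer polynomials which share, modulo a prime `p`, a factor of
positive proportion with a sparse polynomial over `F_p` of comparable degree.
-/

set_option autoImplicit false

open Polynomial

namespace Pool.Agent.Lib.MP_7ab245_nt.Parked.SparseModP

open Pool.Agent.Lib.MP_7ab245_nt

/-- For every `k` and every `ε > 0` there is `c > 0` such that, for every prime `p`,
`M(f) ≥ exp (c * deg f / deg H)` for every `f ∈ ℤ[X]` with `f(0) ≠ 0` and without cyclotomic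
factors, and every nonzero `H ∈ F_p[X]` with at most `k` nonzero coefficients such that
`f mod p` and `H` have a common factor `G` of degree at least `ε * deg f`. -/
theorem result (k : ℕ) (ε : ℝ) (hε : 0 < ε) :
    ∃ c : ℝ, 0 < c ∧ ∀ p : ℕ, p.Prime → ∀ f : ℤ[X], 0 < f.natDegree → f.coeff 0 ≠ 0 →
      (∀ m : ℕ, 0 < m → ¬ cyclotomic m ℤ ∣ f) →
      ∀ H G : (ZMod p)[X], H ≠ 0 → H.support.card ≤ k →
        G ∣ f.map (Int.castRingHom (ZMod p)) → G ∣ H → ε * f.natDegree ≤ G.natDegree →
        Real.exp (c * (f.natDegree / H.natDegree)) ≤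
          (f.map (Int.castRingHom ℂ)).mahlerMeasure := by
  obtain ⟨e, he⟩ : ∃ e : ℕ, 6 / ε ≤ e := exists_nat_ge _
  have he1 : 1 ≤ e + 1 := by omega
  obtain ⟨c0, hc0, hcore'⟩ := core_monic k (e + 1) he1
  have hlog2 : 0 < Real.log 2 := Real.log_pos (by norm_num)
  refine ⟨min (c0 * (ε / 2)) (ε * Real.log 2), lt_min (by positivity) (by positivity), ?_⟩
  intro p hpp f hfd hf0 hcyc H G hH hHk hGf hGH hεG
  have : Fact p.Prime := ⟨hpp⟩
  have hcore := @hcore' p _
  set c := min (c0 * (ε / 2)) (ε * Real.log 2) with hc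
  have hfdR : (0 : ℝ) < f.natDegree := by exact_mod_cast hfd
  have hGH' : G.natDegree ≤ H.natDegree := natDegree_le_of_dvd hGH hH
  have hGHR : (G.natDegree : ℝ) ≤ H.natDegree := by exact_mod_cast hGH'
  have hHpos : (0 : ℝ) < H.natDegree := by
    have : 0 < ε * f.natDegree := by positivity
    linarith
  have hcpos : 0 < c := lt_min (by positivity) (by positivity)
  have hfne : f ≠ 0 := by rintro rfl; simp at hf0
  by_cases hlc : |f.leadingCoeff| = 1
  · -- monic case
    have key : ∀ f1 : ℤ[X], f1.Monic → f1.natDegree = f.natDegree → f1.coeff 0 ≠ 0 →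
        (∀ m : ℕ, 0 < m → ¬ cyclotomic m ℤ ∣ f1) → G ∣ f1.map (Int.castRingHom (ZMod p)) →
        MM f1 = MM f → Real.exp (c * (f.natDegree / H.natDegree)) ≤ MM f := by
      intro f1 hm hd h0 hcyc1 hG1 hMM
      have h1 := hcore H hH hHk f1 hm h0 hcyc1 G hG1 hGH
      rw [hMM, hd] at h1
      have h2 : c * f.natDegree ≤ H.natDegree * Real.log (MM f) := by
        refine le_trans ?_ h1
        have h3 : 3 / (((e + 1 : ℕ) : ℝ) + 1) ≤ ε / 2 := by
          rw [div_le_iff₀ (by positivity)]
          have h4 : 6 ≤ ε * e := by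
            have := (div_le_iff₀ hε).mp he
            linarith
          push_cast
          nlinarith
        calc c * f.natDegree ≤ c0 * (ε / 2) * f.natDegree := by
              gcongr; exact min_le_left _ _
          _ = c0 * (ε * f.natDegree - ε / 2 * f.natDegree) := by ring
          _ ≤ c0 * (G.natDegree - 3 / (((e + 1 : ℕ) : ℝ) + 1) * f.natDegree) := by
              gcongr
      have hMMpos : 0 < MM f := by have := MM_one_le hfne; linarith
      rw [← Real.le_log_iff_exp_le hMMpos, ← mul_div_assoc, div_le_iff₀ hHpos]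
      linarith
    rcases (abs_eq (by norm_num : (0:ℤ) ≤ 1)).mp hlc with h1 | h1
    · exact key f h1 rfl hf0 hcyc hGf rfl
    · refine key (-f) ?_ (natDegree_neg f) (by simpa using hf0) ?_ ?_ ?_
      · rw [Monic, leadingCoeff_neg, h1]; norm_num
      · intro m hm hd
        exact hcyc m hm ((dvd_neg).mp hd)
      · rw [Polynomial.map_neg]; exact hGf.neg_right
      · have h2 : (-f : ℤ[X]) = C (-1 : ℤ) * f := by simp
        rw [h2, MM_mul]
        have : MM (C (-1 : ℤ)) = 1 := by
          unfold MM
          rw [map_C, mahlerMeasure_const]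
          simp
        rw [this, one_mul]
  · have hlc0 : f.leadingCoeff ≠ 0 := leadingCoeff_ne_zero.mpr hfne
    have hlc2 : 2 ≤ |f.leadingCoeff| := by
      have := abs_pos.mpr hlc0
      omega
    have h1 : (2 : ℝ) ≤ MM f := by
      have h2 := leadingCoeff_le_mahlerMeasure (f.map (Int.castRingHom ℂ))
      refine le_trans ?_ h2
      rw [leadingCoeff_map_of_injective (Int.castRingHom ℂ).injective_int]
      have h3 : ‖(Int.castRingHom ℂ) f.leadingCoeff‖ = ((|f.leadingCoeff| : ℤ) : ℝ) := by
        simp
      rw [h3]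
      exact_mod_cast hlc2
    refine le_trans ?_ h1
    rw [← Real.le_log_iff_exp_le (by norm_num), ← mul_div_assoc, div_le_iff₀ hHpos]
    calc c * f.natDegree ≤ ε * Real.log 2 * f.natDegree := by
          gcongr; exact min_le_right _ _
      _ = Real.log 2 * (ε * f.natDegree) := by ring
      _ ≤ Real.log 2 * H.natDegree := by
          gcongr; linarith

end Pool.Agent.Lib.MP_7ab245_nt.Parked.SparseModP
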