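import Mathlib
import Pool.Agent.Lib.MP_7ab245_nt.Mono.Final3

/-!
Dobrowolski's lower bound for the Mahler measure, uniform over generalised arithmetic
progressions of exponents.
-/

set_option autoImplicit false

open Polynomial

namespace Pool.Agent.Results.MP_7ab245_nt.UniformDobrowolski

theorem result : ∃ c : ℝ, 0 < c ∧ ∀ (d L : ℕ) (b : ℤ) (lam : Fin d → ℤ) (f : ℤ[X]),
    (∀ n ∈ f.support, ∃ a : Fin d → ℤ, (∀ i, |a i| ≤ L) ∧ (n : ℤ) = b + ∑ i, a i * lam i) →
    1 < (f.map (Int.castRingHom ℂ)).mahlerMeasure →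
    c * (Real.log (Real.log (((d * L * f.support.card + 2) ^ d : ℕ) : ℝ)) /
        Real.log (((d * L * f.support.card + 2) ^ d : ℕ) : ℝ)) ^ 3 ≤
      Real.log (f.map (Int.castRingHom ℂ)).mahlerMeasure :=
  Pool.Agent.Lib.MP_7ab245_nt.Mono.uniform_dobrowolski

end Pool.Agent.Results.MP_7ab245_nt.UniformDobrowolski
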